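import Mathlib
import Pool.Agent.Q159.WordGridSum

/-!
# Letter distributions of near-extremal word-search grids (MP_f54ac9_co, Q1, disproof)

For the word `w = BAAA` and dimension `d = 2` one has `C_2(w) = 8/5`, and no letter distribution
`h` has the stability property asked for: the extremal `5 × 5` grid has `h(B) = 1/5`, and a `4 × 4`
grid with `h(B) = 3/8` has concentration `3/2 = C_2(w) (1 - 1/16)`. Letters are natural numbers,
`B = 1` and `A = 0`.
-/

set_option autoImplicit false

namespace Pool.Agent.Results.MP_f54ac9_co.NoStability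

/-- The toroidal box `∏ ℤ/n_i ℤ`. -/
abbrev Box {d : ℕ} (n : Fin d → ℕ) : Type := (i : Fin d) → ZMod (n i)

/-- A vector of `{-1, 0, 1}^d` as an element of the torus. -/
def dirVec {d : ℕ} (n : Fin d → ℕ) (v : Fin d → SignType) : Box n :=
  fun i => ((v i : ℤ) : ZMod (n i))

/-- The appearances of the word `w` in the grid `Γ`: pairs of a position `p` and a nonzero vector
`v ∈ {-1, 0, 1}^d` such that `Γ (p + i v)`, `i = 0, …, ℓ - 1`, are the letters of `w`. -/
def appearances {d : ℕ} (n : Fin d → ℕ) (w : List ℕ) (Γ : Box n → ℕ) :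
    Set (Box n × (Fin d → SignType)) :=
  {q | q.2 ≠ 0 ∧ ∀ i : Fin w.length, Γ (q.1 + (i : ℕ) • dirVec n q.2) = w.get i}

/-- The concentration `c_d(w, Γ)`. -/
noncomputable def concentration {d : ℕ} (n : Fin d → ℕ) (w : List ℕ) (Γ : Box n → ℕ) : ℝ :=
  (appearances n w Γ).ncard / Nat.card (Box n)

/-- `C_d(w)`, the supremum of the concentrations over all `d`-dimensional grids. -/
noncomputable def maxConcentration (d : ℕ) (w : List ℕ) : ℝ :=
  sSup {c : ℝ | ∃ n : Fin d → ℕ, (∀ i, 0 < n i) ∧ ∃ Γ : Box n → ℕ, c = concentration n w Γ}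

/-- The letter distribution `h_Γ`. -/
noncomputable def letterDist {d : ℕ} (n : Fin d → ℕ) (Γ : Box n → ℕ) (a : ℕ) : ℝ :=
  {p : Box n | Γ p = a}.ncard / Nat.card (Box n)

/-- A letter distribution: nonnegative, with finite support, and of total mass `1`. -/
structure IsLetterDist (h : ℕ → ℝ) : Prop where
  nonneg : ∀ a, 0 ≤ h a
  finite : (Function.support h).Finite
  total : ∑ᶠ a, h a = 1

/-- Total variation distance. -/
noncomputable def tv (h₁ h₂ : ℕ → ℝ) : ℝ := (1 / 2) * ∑ᶠ a, |h₁ a - h₂ a|

/-- The property asked for in Q1 for the word `w` and the dimension `d`. -/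
def Stable (w : List ℕ) (d : ℕ) : Prop :=
  ∃ h : ℕ → ℝ, IsLetterDist h ∧ ∀ δ : ℝ, 0 ≤ δ → ∀ n : Fin d → ℕ, (∀ i, 0 < n i) →
    ∀ Γ : Box n → ℕ, maxConcentration d w * (1 - δ) ≤ concentration n w Γ →
      tv (letterDist n Γ) h ≤ δ

/-- The word `BAAA`. -/
def word : List ℕ := [1, 0, 0, 0]

section Upper

variable (n : Fin 2 → ℕ) [∀ i, NeZero (n i)]

theorem sum_dirs (F : (Fin 2 → SignType) → ℕ) :
    ∑ v, F v = ∑ a : SignType, ∑ b : SignType, F ![a, b] := by
  rw [← Fintype.sum_prod_type']
  apply Fintype.sum_equiv (finTwoArrowEquiv SignType)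
  intro v
  simp only [finTwoArrowEquiv_apply]
  congr 1
  ext i
  fin_cases i <;> rfl

theorem sum_sign (F : SignType → ℕ) : ∑ a, F a = F 0 + F 1 + F (-1) := by
  have : (Finset.univ : Finset SignType) = {0, 1, -1} := by decide
  rw [this, Finset.sum_insert (by decide), Finset.sum_insert (by decide), Finset.sum_singleton,
    add_assoc]

theorem upper (Γ : Box n → ℕ) : concentration n word Γ ≤ 8 / 5 := by
  classical
  set x : Box n → Bool := fun p => decide (Γ p = 1) with hx
  -- the number of appearances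
  have h1 : (appearances n word Γ).ncard ≤
      ∑ v : Fin 2 → SignType, if v = 0 then 0 else Q159.WordGrid.A x (dirVec n v) := by
    have hfin : (appearances n word Γ) =
        ((Finset.univ.filter fun q : Box n × (Fin 2 → SignType) =>
          q ∈ appearances n word Γ) : Set (Box n × (Fin 2 → SignType))) := by
      ext q; simp
    rw [hfin, Set.ncard_coe_finset, Finset.card_filter, Fintype.sum_prod_type_right]
    apply Finset.sum_le_sum
    intro v _
    by_cases hv : v = 0
    · rw [if_pos hv]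
      apply le_of_eq
      apply Finset.sum_eq_zero
      intro p _
      rw [if_neg]
      rintro ⟨h, _⟩
      exact h hv
    · rw [if_neg hv]
      unfold Q159.WordGrid.A
      apply Finset.sum_le_sum
      intro p _
      split_ifs with c1 c2
      · exact le_rfl
      · exfalso
        apply c2
        obtain ⟨_, c⟩ := c1
        have a0 := c ⟨0, by decide⟩
        have a1 := c ⟨1, by decide⟩
        have a2 := c ⟨2, by decide⟩
        have a3 := c ⟨3, by decide⟩
        simp only [word, List.get, zero_nsmul, one_nsmul, add_zero] at a0 a1 a2 a3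
        simp only [hx, decide_eq_true_eq, decide_eq_false_iff_not]
        exact ⟨a0, by omega, by omega, by omega⟩
      · exact Nat.zero_le _
      · exact le_rfl
  rw [sum_dirs] at h1
  simp only [sum_sign] at h1
  have hne : ∀ a b : SignType, (a ≠ 0 ∨ b ≠ 0) → ¬ (![a, b] : Fin 2 → SignType) = 0 := by
    decide
  rw [if_pos (show (![0, 0] : Fin 2 → SignType) = 0 by decide), if_neg (hne 0 1 (by decide)),
    if_neg (hne 0 (-1) (by decide)), if_neg (hne 1 0 (by decide)), if_neg (hne 1 1 (by decide)),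
    if_neg (hne 1 (-1) (by decide)), if_neg (hne (-1) 0 (by decide)),
    if_neg (hne (-1) 1 (by decide)), if_neg (hne (-1) (-1) (by decide))] at h1
  -- the eight vectors
  set e : Box n := dirVec n ![1, 0] with he
  set f : Box n := dirVec n ![0, 1] with hf
  have v1 : dirVec n ![0, -1] = -f := by
    funext i; fin_cases i <;> simp [dirVec, hf]
  have v2 : dirVec n ![-1, 0] = -e := by
    funext i; fin_cases i <;> simp [dirVec, he]
  have v3 : dirVec n ![1, 1] = e + f := by
    funext i; fin_cases i <;> simp [dirVec, he, hf]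
  have v4 : dirVec n ![-1, -1] = -(e + f) := by
    funext i; fin_cases i <;> simp [dirVec, he, hf]
  have v5 : dirVec n ![-1, 1] = f - e := by
    funext i; fin_cases i <;> simp [dirVec, he, hf]
  have v6 : dirVec n ![1, -1] = -(f - e) := by
    funext i; fin_cases i <;> simp [dirVec, he, hf]
  rw [v1, v2, v3, v4, v5, v6] at h1
  have h2 := Q159.WordGrid.eight_bound x e f
  have h3 : 5 * (appearances n word Γ).ncard ≤ 8 * Fintype.card (Box n) := by omega
  unfold concentration
  have hpos : (0 : ℝ) < Nat.card (Box n) := by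
    rw [Nat.card_eq_fintype_card]
    exact_mod_cast Fintype.card_pos
  rw [div_le_iff₀ hpos, Nat.card_eq_fintype_card]
  have h4 : (5 : ℝ) * (appearances n word Γ).ncard ≤ 8 * Fintype.card (Box n) := by
    exact_mod_cast h3
  linarith

end Upper

/-- The extremal `5 × 5` grid. -/
def grid5 : Box (fun _ : Fin 2 => 5) → ℕ := fun p => if p 0 + 2 * p 1 = 0 then 1 else 0

/-- The `4 × 4` grid `AAAB / BBAB / AAAB / AABA`. -/
def grid4 : Box (fun _ : Fin 2 => 4) → ℕ := fun p =>
  if (p 0, p 1) ∈ ([(0, 3), (1, 0), (1, 1), (1, 3), (2, 3), (3, 2)] : List (ZMod 4 × ZMod 4)) then 1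
  else 0

theorem count5 : (Finset.univ.filter fun q : Box (fun _ : Fin 2 => 5) × (Fin 2 → SignType) =>
    q.2 ≠ 0 ∧ ∀ i : Fin 4, grid5 (q.1 + (i : ℕ) • dirVec (fun _ => 5) q.2) =
      [1, 0, 0, 0].get i).card = 40 := by
  decide +kernel

theorem count4 : (Finset.univ.filter fun q : Box (fun _ : Fin 2 => 4) × (Fin 2 → SignType) =>
    q.2 ≠ 0 ∧ ∀ i : Fin 4, grid4 (q.1 + (i : ℕ) • dirVec (fun _ => 4) q.2) =
      [1, 0, 0, 0].get i).card = 24 := by
  decide +kernel

theorem card5 : Nat.card (Box (fun _ : Fin 2 => 5)) = 25 := by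
  rw [Nat.card_eq_fintype_card]; decide +kernel

theorem card4 : Nat.card (Box (fun _ : Fin 2 => 4)) = 16 := by
  rw [Nat.card_eq_fintype_card]; decide +kernel

theorem conc5 : concentration (fun _ : Fin 2 => 5) word grid5 = 8 / 5 := by
  classical
  have h : appearances (fun _ : Fin 2 => 5) word grid5 =
      ((Finset.univ.filter fun q : Box (fun _ : Fin 2 => 5) × (Fin 2 → SignType) =>
        q.2 ≠ 0 ∧ ∀ i : Fin 4, grid5 (q.1 + (i : ℕ) • dirVec (fun _ => 5) q.2) =
          [1, 0, 0, 0].get i) : Set (Box (fun _ : Fin 2 => 5) × (Fin 2 → SignType))) := by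
    ext q
    simp only [Finset.coe_filter, Finset.mem_univ, true_and]
    rfl
  unfold concentration
  rw [h, Set.ncard_coe_finset, count5, card5]
  norm_num

theorem conc4 : concentration (fun _ : Fin 2 => 4) word grid4 = 3 / 2 := by
  classical
  have h : appearances (fun _ : Fin 2 => 4) word grid4 =
      ((Finset.univ.filter fun q : Box (fun _ : Fin 2 => 4) × (Fin 2 → SignType) =>
        q.2 ≠ 0 ∧ ∀ i : Fin 4, grid4 (q.1 + (i : ℕ) • dirVec (fun _ => 4) q.2) =
          [1, 0, 0, 0].get i) : Set (Box (fun _ : Fin 2 => 4) × (Fin 2 → SignType))) := by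
    ext q
    simp only [Finset.coe_filter, Finset.mem_univ, true_and]
    rfl
  unfold concentration
  rw [h, Set.ncard_coe_finset, count4, card4]
  norm_num

theorem letters5 (a k : ℕ)
    (h : (Finset.univ.filter fun p : Box (fun _ : Fin 2 => 5) => grid5 p = a).card = k) :
    letterDist (fun _ : Fin 2 => 5) grid5 a = k / 25 := by
  have h' : {p : Box (fun _ : Fin 2 => 5) | grid5 p = a} =
      ((Finset.univ.filter fun p : Box (fun _ : Fin 2 => 5) => grid5 p = a) :
        Set (Box (fun _ : Fin 2 => 5))) := by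
    ext p; simp
  unfold letterDist
  rw [h', Set.ncard_coe_finset, h, card5]
  norm_num

theorem letters4 (a k : ℕ)
    (h : (Finset.univ.filter fun p : Box (fun _ : Fin 2 => 4) => grid4 p = a).card = k) :
    letterDist (fun _ : Fin 2 => 4) grid4 a = k / 16 := by
  have h' : {p : Box (fun _ : Fin 2 => 4) | grid4 p = a} =
      ((Finset.univ.filter fun p : Box (fun _ : Fin 2 => 4) => grid4 p = a) :
        Set (Box (fun _ : Fin 2 => 4))) := by
    ext p; simp
  unfold letterDist
  rw [h', Set.ncard_coe_finset, h, card4]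
  norm_num

theorem letters5_zero : letterDist (fun _ : Fin 2 => 5) grid5 0 = 4 / 5 := by
  rw [letters5 0 20 (by decide +kernel)]; norm_num

theorem letters5_one : letterDist (fun _ : Fin 2 => 5) grid5 1 = 1 / 5 := by
  rw [letters5 1 5 (by decide +kernel)]; norm_num

theorem letters4_zero : letterDist (fun _ : Fin 2 => 4) grid4 0 = 5 / 8 := by
  rw [letters4 0 10 (by decide +kernel)]; norm_num

theorem letters4_one : letterDist (fun _ : Fin 2 => 4) grid4 1 = 3 / 8 := by
  rw [letters4 1 6 (by decide +kernel)]; norm_num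

/-- A letter distribution has finite support. -/
theorem letterDist_support {d : ℕ} (n : Fin d → ℕ) (Γ : Box n → ℕ) [∀ i, NeZero (n i)] :
    (Function.support (letterDist n Γ)).Finite := by
  apply Set.Finite.subset (Set.finite_range Γ)
  intro a ha
  by_contra hcon
  apply ha
  unfold letterDist
  have : {p : Box n | Γ p = a} = ∅ := by
    ext p
    simp only [Set.mem_ofPred_eq, Set.mem_empty_iff_false, iff_false]
    intro h
    exact hcon ⟨p, h⟩
  rw [this]
  simp

/-- The total variation distance is at least half the difference on the letters `0` and `1`. -/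
theorem tv_lower {h₁ h₂ : ℕ → ℝ} (f1 : (Function.support h₁).Finite)
    (f2 : (Function.support h₂).Finite) :
    (1 / 2) * (|h₁ 0 - h₂ 0| + |h₁ 1 - h₂ 1|) ≤ tv h₁ h₂ := by
  unfold tv
  have hsub : Function.support (fun a => |h₁ a - h₂ a|) ⊆
      ((f1.toFinset ∪ f2.toFinset ∪ {0, 1} : Finset ℕ) : Set ℕ) := by
    intro a ha
    simp only [Finset.coe_union, Set.Finite.coe_toFinset, Set.mem_union]
    left
    by_contra hcon
    push Not at hcon
    have a1 : h₁ a = 0 := by simpa using hcon.1
    have a2 : h₂ a = 0 := by simpa using hcon.2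
    apply ha
    simp [a1, a2]
  rw [finsum_eq_sum_of_support_subset _ hsub]
  have hle : ∑ a ∈ ({0, 1} : Finset ℕ), |h₁ a - h₂ a| ≤
      ∑ a ∈ f1.toFinset ∪ f2.toFinset ∪ {0, 1}, |h₁ a - h₂ a| :=
    Finset.sum_le_sum_of_subset_of_nonneg Finset.subset_union_right
      (fun a _ _ => abs_nonneg _)
  rw [Finset.sum_pair (by norm_num)] at hle
  linarith

theorem maxConcentration_word : maxConcentration 2 word = 8 / 5 := by
  apply le_antisymm
  · apply csSup_le
    · exact ⟨_, fun _ => 5, by simp, grid5, rfl⟩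
    · rintro c ⟨n, hn, Γ, rfl⟩
      haveI : ∀ i, NeZero (n i) := fun i => ⟨(hn i).ne'⟩
      exact upper n Γ
  · rw [← conc5]
    apply le_csSup
    · refine ⟨8 / 5, ?_⟩
      rintro c ⟨n, hn, Γ, rfl⟩
      haveI : ∀ i, NeZero (n i) := fun i => ⟨(hn i).ne'⟩
      exact upper n Γ
    · exact ⟨fun _ => 5, by simp, grid5, rfl⟩

theorem not_stable : ¬ Stable word 2 := by
  rintro ⟨h, hh, hst⟩
  have h5 := hst 0 le_rfl (fun _ => 5) (by simp) grid5 (by
    rw [maxConcentration_word, conc5]; norm_num)
  have h4 := hst (1 / 16) (by norm_num) (fun _ => 4) (by simp) grid4 (by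
    rw [maxConcentration_word, conc4]; norm_num)
  have l5 := tv_lower (letterDist_support (fun _ : Fin 2 => 5) grid5) hh.finite
  have l4 := tv_lower (letterDist_support (fun _ : Fin 2 => 4) grid4) hh.finite
  rw [letters5_zero, letters5_one] at l5
  rw [letters4_zero, letters4_one] at l4
  have a0 : |(4 : ℝ) / 5 - h 0| + |(1 : ℝ) / 5 - h 1| ≤ 0 := by linarith
  have a1 : |(5 : ℝ) / 8 - h 0| + |(3 : ℝ) / 8 - h 1| ≤ 1 / 8 := by linarith
  have b0 := abs_le.1 (show |(4 : ℝ) / 5 - h 0| ≤ 0 by linarith [abs_nonneg ((1 : ℝ) / 5 - h 1)])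
  have b1 := abs_le.1 (show |(1 : ℝ) / 5 - h 1| ≤ 0 by linarith [abs_nonneg ((4 : ℝ) / 5 - h 0)])
  have c0 := neg_abs_le ((5 : ℝ) / 8 - h 0)
  have c1 := le_abs_self ((3 : ℝ) / 8 - h 1)
  linarith [b0.1, b0.2, b1.1, b1.2]

/-- For `w = BAAA` and `d = 2`: `C_2(w) = 8/5`, and no letter distribution has the stability
property. Hence the answer to Q1 is negative. -/
theorem result :
    maxConcentration 2 word = 8 / 5 ∧ ¬ Stable word 2 ∧
    ¬ ∀ w : List ℕ, (∃ a ∈ w, ∃ b ∈ w, a ≠ b) → ∀ d : ℕ, 1 ≤ d → Stable w d := by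
  refine ⟨maxConcentration_word, not_stable, fun h => not_stable ?_⟩
  exact h word ⟨1, by simp [word], 0, by simp [word], by norm_num⟩ 2 (by norm_num)

end Pool.Agent.Results.MP_f54ac9_co.NoStability
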